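import Pool.Agent.helper55.NK.Spec
import Pool.Agent.helper55.NK.Base

/-! SIN, VAN, EXP. -/

set_option autoImplicit false

namespace Pool.Agent.helper76.NK

open Finset Pool.Agent.NK Pool.Agent.NK.Base

theorem SIN (hMON : MON_stmt) : SIN_stmt := by
  intro a b i j k hi hj hk hn
  exact (prod_le a b i j hi hj (by omega)).trans (hMON (a + b) (i + j) k (by omega) hk hn)

theorem VAN : VAN_stmt := by
  intro a b i j hi hj
  rw [Nat.add_choose_eq]
  have hsub : ({(i, j), (i - 1, j + 1), (i + 1, j - 1), (i - 2, j + 2), (i + 2, j - 2)} : Finset (ℕ × ℕ)) ⊆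
      antidiagonal (i + j) := by
    intro x hx
    simp only [Finset.mem_insert, Finset.mem_singleton] at hx
    rw [Finset.HasAntidiagonal.mem_antidiagonal]
    rcases hx with rfl | rfl | rfl | rfl | rfl <;> dsimp only <;> omega
  refine le_trans (le_of_eq ?_) (Finset.sum_le_sum_of_subset hsub)
  rw [Finset.sum_insert, Finset.sum_insert, Finset.sum_insert, Finset.sum_insert, Finset.sum_singleton]
  · ring
  all_goals
    simp only [Finset.mem_insert, Finset.mem_singleton, Prod.mk.injEq]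
    omega

theorem EXP : EXP_stmt := by
  intro t ht
  have ht1 : (1 : ℝ) < (t : ℝ) := by exact_mod_cast (by omega : 1 < t)
  have hs : (0 : ℝ) < (t : ℝ) - 1 := by linarith
  have h1 : Real.exp (-(1 / ((t : ℝ) - 1))) ≤ 1 - 1 / (t : ℝ) := by
    have h2 : (1 : ℝ) / ((t : ℝ) - 1) + 1 ≤ Real.exp (1 / ((t : ℝ) - 1)) := Real.add_one_le_exp _
    rw [Real.exp_neg]
    have h3 : (1 : ℝ) - 1 / (t : ℝ) = (1 / ((t : ℝ) - 1) + 1)⁻¹ := by
      field_simp
      ring
    rw [h3]
    exact inv_anti₀ (by positivity) h2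
  have h4 : Real.exp (-1) ≤ (1 - 1 / (t : ℝ)) ^ (t - 1) := by
    have h5 : Real.exp (-1) = Real.exp (-(1 / ((t : ℝ) - 1))) ^ (t - 1) := by
      rw [← Real.exp_nat_mul, Nat.cast_sub (by omega : 1 ≤ t)]
      congr 1
      push_cast
      field_simp
    rw [h5]
    exact pow_le_pow_left₀ (Real.exp_pos _).le h1 _
  have h6 := Real.exp_neg_one_gt_d9
  linarith

end Pool.Agent.helper76.NK
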